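import Pool.Agent.H76.KO.Full

/-!
# Korovin orbits: necessary conditions for normality, in ZFC

No Korovin orbit of a group of cardinality `ℵ₁` is normal, and a Korovin orbit in which every pattern on `ℵ₁` coordinates is
realised is not normal. `X` is an arbitrary space with at least two points.
-/

set_option autoImplicit false

open Set Cardinal

universe u v

namespace Pool.Agent.Results.MP_bc88c0_gt.NonNormalOrbits

/-- Every pattern on a countable set of coordinates is realised. -/
def IsKorovin {G : Type u} {X : Type v} [CommGroup G] (f : G → X) : Prop :=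
  ∀ M : Set G, M.Countable → ∀ r : G → X, ∃ g : G, ∀ m ∈ M, f (m * g) = r m

/-- The orbit of `f` under translations, a subset of the product `G → X`. -/
def orbit {G : Type u} {X : Type v} [CommGroup G] (f : G → X) : Set (G → X) :=
  Set.range fun g : G => fun x : G => f (x * g)

theorem result {G : Type u} {X : Type v} [CommGroup G] [TopologicalSpace X] [Nontrivial X] (f : G → X) (hf : IsKorovin f)
    (h4 : T4Space (orbit f)) :
    ℵ_ 2 ≤ #G ∧ (∃ M : Set G, #M = ℵ₁ ∧ ∃ r : G → X, ∀ g : G, ∃ m ∈ M, f (m * g) ≠ r m) ∧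
      (ℵ₀ < (#G).ord.cof → ∃ M : Set G, #M < #G ∧ ∃ r : G → X, ∀ g : G, ∃ m ∈ M, f (m * g) ≠ r m) := by
  have hcof : ℵ₀ < (#G).ord.cof → ∃ M : Set G, #M < #G ∧ ∃ r : G → X, ∀ g : G, ∃ m ∈ M, f (m * g) ≠ r m := by
    intro hc
    by_contra hcon
    push Not at hcon
    exact Pool.H76.KO.Non.not_T4 f hc hcon h4
  have hG : ¬ #G ≤ ℵ₀ := by
    classical
    intro h
    have h2 : Function.Surjective fun g : G => fun x : G => f (x * g) := by
      intro r
      have hu : (univ : Set G).Countable := by
        rw [← le_aleph0_iff_set_countable, mk_univ]; exact h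
      obtain ⟨g, hg⟩ := hf univ hu r
      exact ⟨g, funext fun x => hg x trivial⟩
    obtain ⟨a, b, hab⟩ := exists_pair_ne X
    obtain ⟨g, hg⟩ := h2 fun z => if f (z * z) = a then b else a
    have := congrFun hg g
    simp only at this
    split_ifs at this with h
    · exact hab (h.symm.trans this)
    · exact h this
  have h1 : ℵ₁ ≤ #G := by
    rw [← succ_aleph0]
    exact Order.succ_le_of_lt (not_le.1 hG)
  have h2 : (ℵ_ 2 : Cardinal.{u}) = Order.succ ℵ₁ := by
    rw [← aleph_succ]
    congr 1
    norm_num
  refine ⟨?_, ?_, hcof⟩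
  · rw [h2]
    apply Order.succ_le_of_lt
    refine lt_of_le_of_ne h1 fun heq => ?_
    have hc : ℵ₀ < (#G).ord.cof := by
      rw [← heq, isRegular_aleph_one.cof_ord]; exact aleph0_lt_aleph_one
    obtain ⟨M, hM, r, hr⟩ := hcof hc
    have hMc : M.Countable := by
      rw [← le_aleph0_iff_set_countable]
      rw [← heq, ← succ_aleph0] at hM
      exact Order.lt_succ_iff.1 hM
    obtain ⟨g, hg⟩ := hf M hMc r
    obtain ⟨m, hm, hne⟩ := hr g
    exact hne (hg m hm)
  · by_contra hcon
    push Not at hcon
    apply Pool.H76.KO.Non.not_T4_of_full f _ h4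
    intro M hM r
    rcases lt_or_eq_of_le hM with hlt | heq
    · refine hf M ?_ r
      rw [← le_aleph0_iff_set_countable]
      rw [← succ_aleph0] at hlt
      exact Order.lt_succ_iff.1 hlt
    · exact hcon M heq r

end Pool.Agent.Results.MP_bc88c0_gt.NonNormalOrbits
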